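import Mathlib

set_option autoImplicit false

namespace Pool.Agent.Results.MP_d2ef9c_co.ThreeSevenths

open Filter Topology

/-- The vertex set of the triangular grid T_n. -/
noncomputable def V (n : ℕ) : Finset (ℤ × ℤ) :=
  (Finset.Icc (0 : ℤ) n ×ˢ Finset.Icc (0 : ℤ) n).filter (fun p => p.1 + p.2 ≤ n)

/-- The infinite triangular grid on ℤ²; T_n is its subgraph induced on V n. -/
def grid : SimpleGraph (ℤ × ℤ) where
  Adj p q := (p.2 = q.2 ∧ |p.1 - q.1| = 1) ∨ (p.1 = q.1 ∧ |p.2 - q.2| = 1) ∨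
    (p.1 - q.1 = q.2 - p.2 ∧ |p.1 - q.1| = 1)
  symm := ⟨by
    intro p q h
    simp only [abs_eq (show (0 : ℤ) ≤ 1 by norm_num)] at h ⊢
    omega⟩
  loopless := ⟨by intro p h; simp at h⟩

/-- Every connected component of the subgraph induced on S is complete. -/
def Indeque (S : Finset (ℤ × ℤ)) : Prop :=
  ∀ u v : (S : Set (ℤ × ℤ)), (grid.induce (S : Set (ℤ × ℤ))).Reachable u v →
    u = v ∨ (grid.induce (S : Set (ℤ × ℤ))).Adj u v

open Classical in
/-- The indeque number of T_n. -/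
noncomputable def aw (n : ℕ) : ℕ := ((V n).powerset.filter Indeque).sup Finset.card

def pat (c : ℤ) (p : ℤ × ℤ) : Prop :=
  (p.1 + 3 * p.2 + c) % 7 = 0 ∨ (p.1 + 3 * p.2 + c) % 7 = 1 ∨ (p.1 + 3 * p.2 + c) % 7 = 3

instance (c : ℤ) : DecidablePred (pat c) := fun p => by unfold pat; infer_instance

lemma trans3 (c : ℤ) (u v w : ℤ × ℤ) (hu : pat c u) (hv : pat c v) (hw : pat c w)
    (h1 : grid.Adj u v) (h2 : grid.Adj v w) : u = w ∨ grid.Adj u w := by
  obtain ⟨a, b⟩ := u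
  obtain ⟨a', b'⟩ := v
  obtain ⟨a'', b''⟩ := w
  simp only [grid, pat, abs_eq (show (0 : ℤ) ≤ 1 by norm_num), Prod.mk.injEq] at *
  rcases h1 with ⟨e, f | f⟩ | ⟨e, f | f⟩ | ⟨e, f | f⟩ <;>
  rcases h2 with ⟨g, h | h⟩ | ⟨g, h | h⟩ | ⟨g, h | h⟩ <;> omega

lemma indeque_pat (n : ℕ) (c : ℤ) : Indeque ((V n).filter (pat c)) := by
  intro u v h
  rw [SimpleGraph.reachable_iff_reflTransGen] at h
  induction h with
  | refl => exact Or.inl rfl
  | @tail x y _ hxy ih =>
    rcases ih with rfl | ih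
    · exact Or.inr hxy
    · have hu : pat c u.1 := (Finset.mem_filter.1 (Finset.mem_coe.1 u.2)).2
      have hx : pat c x.1 := (Finset.mem_filter.1 (Finset.mem_coe.1 x.2)).2
      have hy : pat c y.1 := (Finset.mem_filter.1 (Finset.mem_coe.1 y.2)).2
      rcases trans3 c _ _ _ hu hx hy ih hxy with e | e
      · exact Or.inl (Subtype.ext e)
      · exact Or.inr e

lemma le_aw (n : ℕ) (c : ℤ) : ((V n).filter (pat c)).card ≤ aw n := by
  classical
  unfold aw
  refine Finset.le_sup (f := Finset.card) ?_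
  simp only [Finset.mem_filter, Finset.mem_powerset]
  exact ⟨Finset.filter_subset _ _, indeque_pat n c⟩

lemma bound (n : ℕ) : 3 * (V n).card ≤ 7 * aw n := by
  have h : ∑ c ∈ Finset.range 7, ((V n).filter (pat (c : ℤ))).card = 3 * (V n).card := by
    simp only [Finset.card_filter]
    rw [Finset.sum_comm, Finset.card_eq_sum_ones, Finset.mul_sum]
    refine Finset.sum_congr rfl fun p _ => ?_
    have key : ∀ r : ℤ, 0 ≤ r → r < 7 → ∑ c ∈ Finset.range 7,
        (if (r + c) % 7 = 0 ∨ (r + c) % 7 = 1 ∨ (r + c) % 7 = 3 then 1 else 0) = 3 * 1 := by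
      intro r h0 h1
      interval_cases r <;> decide
    rw [← key ((p.1 + 3 * p.2) % 7) (by omega) (by omega)]
    refine Finset.sum_congr rfl fun c _ => ?_
    refine if_congr ?_ rfl rfl
    unfold pat
    omega
  rw [← h]
  calc ∑ c ∈ Finset.range 7, ((V n).filter (pat (c : ℤ))).card ≤ ∑ _c ∈ Finset.range 7, aw n :=
        Finset.sum_le_sum fun c _ => le_aw n c
    _ = 7 * aw n := by simp

theorem result :
    (∀ n : ℕ, (3 / 7 : ℝ) ≤ (aw n : ℝ) / ((V n).card : ℝ)) ∧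
    ¬ Tendsto (fun n : ℕ => (aw n : ℝ) / ((V n).card : ℝ)) atTop (𝓝 (2 / 5)) := by
  have h : ∀ n : ℕ, (3 / 7 : ℝ) ≤ (aw n : ℝ) / ((V n).card : ℝ) := by
    intro n
    have hp : 0 < (V n).card := Finset.card_pos.2 ⟨(0, 0), by simp [V]⟩
    have hp' : (0 : ℝ) < (V n).card := by exact_mod_cast hp
    have : (3 : ℝ) * (V n).card ≤ 7 * aw n := by exact_mod_cast bound n
    rw [le_div_iff₀ hp']
    linarith
  refine ⟨h, fun ht => ?_⟩
  have := ge_of_tendsto' ht h
  norm_num at this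

end Pool.Agent.Results.MP_d2ef9c_co.ThreeSevenths
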